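import Pool.Agent.P.MP_2b0d5b_co.Main

/-
5-critical graphs with minimum degree at least n/10 - 3, for every n ≥ 46, without a 4-clique.

Five blocks `j : Fin 5`. Block `j` has an odd cycle `Z j` on `2M+1` vertices, joined completely to
an independent set `W j` on `m j` vertices, `2 ≤ m j ≤ 2M`. In a 4-colouring `W j` is
monochromatic, of a colour `c j` that `Z j` avoids. Vertex `i ≥ 1` of `Z (j+1)` is joined to vertex
`min (i-1) (m j - 1)` of `W j`, vertex 0 of `Z (j+2)` is joined to vertex 0 of `W j`, and vertex 1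
of `W j` is joined to vertex 0 of `W (j+2)`. Then `c j ≠ c (j+2)`, and `c j = c (j+1)` would leave
two colours for the odd cycle `Z (j+2)`; so the five colours `c j` are distinct, which is
impossible. Deleting any edge between `Z j` and `W j` leaves a 4-colourable graph.
-/

set_option autoImplicit false

namespace Pool.Agent.P.MP_2b0d5b_co.Five

open SimpleGraph

/-- From a non-4-colourable graph, pass to an edge-minimal non-4-colourable spanning subgraph. -/
theorem exists_critical_le {V : Type} [Fintype V] (G : SimpleGraph V) (hG : ¬ G.Colorable 4) :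
    ∃ H : SimpleGraph V, H ≤ G ∧ H.chromaticNumber = 5 ∧
      (∀ e ∈ H.edgeSet, (H.deleteEdges {e}).chromaticNumber < 5) ∧
      ∀ a b, G.Adj a b → (G.deleteEdges {s(a, b)}).Colorable 4 → H.Adj a b := by
  classical
  obtain ⟨H, ⟨hHG, hH⟩, hmin⟩ :=
    (wellFounded_lt (α := SimpleGraph V)).has_min {H | H ≤ G ∧ ¬ H.Colorable 4} ⟨G, le_rfl, hG⟩
  have hdel : ∀ e ∈ H.edgeSet, (H.deleteEdges {e}).Colorable 4 := by
    intro e he
    by_contra hc
    refine hmin (H.deleteEdges {e}) ⟨(H.deleteEdges_le _).trans hHG, hc⟩ ?_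
    refine lt_of_le_of_ne (H.deleteEdges_le _) ?_
    intro heq
    have : e ∈ (H.deleteEdges {e}).edgeSet := by rw [heq]; exact he
    simp [edgeSet_deleteEdges] at this
  obtain ⟨K, hK1, -, hK3⟩ := exists_critical H hH
  have hHK : H ≤ K := fun a b hab => hK3 a b hab (hdel _ hab)
  refine ⟨H, hHG, ?_, ?_, ?_⟩
  · refine le_antisymm (hK1 ▸ chromaticNumber_mono K hHK) ?_
    by_contra hlt
    apply hH
    have h4 : H.chromaticNumber ≤ (4 : ℕ) := by
      have : H.chromaticNumber < (4 : ℕ∞) + 1 := by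
        have := not_le.1 hlt
        simpa using (show H.chromaticNumber < (4 : ℕ∞) + 1 from by norm_num; exact this)
      exact_mod_cast Order.le_of_lt_add_one this
    exact chromaticNumber_le_iff_colorable.1 h4
  · intro e he
    have := (hdel e he).chromaticNumber_le
    exact lt_of_le_of_lt this (by norm_num)
  · intro a b hab hc
    by_contra hn
    apply hH
    refine hc.mono_left ?_
    intro x y hxy
    rw [deleteEdges_adj]
    refine ⟨hHG hxy, ?_⟩
    simp only [Set.mem_singleton_iff, Sym2.eq_iff]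
    rintro (⟨rfl, rfl⟩ | ⟨rfl, rfl⟩)
    · exact hn hxy
    · exact hn hxy.symm

/-- Codes of vertices: block, then cycle position (left) or independent-set position (right). -/
abbrev Pt : Type := Fin 5 × (ℕ ⊕ ℕ)

/-- The codes that are vertices. -/
def Ok (M : ℕ) (m : Fin 5 → ℕ) : Pt → Prop
  | (_, Sum.inl i) => i ≤ 2 * M
  | (j, Sum.inr k) => k < m j

/-- The edges, oriented. -/
def R (M : ℕ) (m : Fin 5 → ℕ) : Pt → Pt → Prop
  | (j, Sum.inl i), (j', Sum.inl i') => j' = j ∧ (i' = i + 1 ∨ (i = 2 * M ∧ i' = 0))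
  | (j, Sum.inl i), (j', Sum.inr k) =>
      j' = j ∨ (j = j' + 1 ∧ 1 ≤ i ∧ k = min (i - 1) (m j' - 1)) ∨ (j = j' + 2 ∧ i = 0 ∧ k = 0)
  | (_, Sum.inr _), (_, Sum.inl _) => False
  | (j, Sum.inr k), (j', Sum.inr k') => k = 1 ∧ k' = 0 ∧ j' = j + 2

theorem no_five (c0 c1 c2 c3 c4 : Fin 4) : c0 ≠ c1 → c0 ≠ c2 → c0 ≠ c3 → c0 ≠ c4 → c1 ≠ c2 →
    c1 ≠ c3 → c1 ≠ c4 → c2 ≠ c3 → c2 ≠ c4 → c3 ≠ c4 → False := by
  omega

theorem not_colourable (M : ℕ) (m : Fin 5 → ℕ) (hm : ∀ j, 2 ≤ m j) (col : Pt → Fin 4)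
    (h : ∀ a b, Ok M m a → Ok M m b → R M m a b → col a ≠ col b) : False := by
  have hcyc : ∀ j : Fin 5, ∀ a b : Fin 4, a ≠ b → (∀ i, i ≤ 2 * M → col (j, Sum.inl i) ≠ a) →
      (∀ i, i ≤ 2 * M → col (j, Sum.inl i) ≠ b) → False := by
    intro j a b hab ha hb
    refine odd_cycle M (fun i => col (j, Sum.inl i.val)) ?_ ?_ a b hab
      (fun i => ha _ (by omega)) (fun i => hb _ (by omega))
    · intro i i' hi
      exact h _ _ (show i.val ≤ 2 * M by omega) (show i'.val ≤ 2 * M by omega) ⟨rfl, Or.inl hi⟩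
    · intro i i' hi hi'
      exact h _ _ (show i.val ≤ 2 * M by omega) (show i'.val ≤ 2 * M by omega)
        ⟨rfl, Or.inr ⟨hi, hi'⟩⟩
  have hZW : ∀ j i k, i ≤ 2 * M → k < m j → col (j, Sum.inl i) ≠ col (j, Sum.inr k) :=
    fun j i k hi hk => h _ _ hi hk (Or.inl rfl)
  have hmono : ∀ j k k', k < m j → k' < m j → col (j, Sum.inr k) = col (j, Sum.inr k') := by
    intro j k k' hk hk'
    by_contra hne
    exact hcyc j _ _ hne (fun i hi => hZW j i k hi hk) (fun i hi => hZW j i k' hi hk')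
  have h0 : ∀ j, 0 < m j := fun j => by have := hm j; omega
  have h1 : ∀ j, 1 < m j := fun j => by have := hm j; omega
  let c : Fin 5 → Fin 4 := fun j => col (j, Sum.inr 0)
  have e2 : ∀ j, c j ≠ c (j + 2) := by
    intro j
    show col (j, Sum.inr 0) ≠ col (j + 2, Sum.inr 0)
    rw [hmono j 0 1 (h0 j) (h1 j)]
    exact h _ _ (h1 j) (h0 _) ⟨rfl, rfl, rfl⟩
  have e1 : ∀ j, c j ≠ c (j + 1) := by
    intro j heq
    refine hcyc (j + 2) (c j) (c (j + 2)) (e2 j) ?_ (fun i hi => hZW _ i 0 hi (h0 _))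
    intro i hi
    by_cases hi0 : i = 0
    · exact h _ _ hi (h0 j) (Or.inr (Or.inr ⟨rfl, hi0, rfl⟩))
    · rw [heq]
      show col (j + 2, Sum.inl i) ≠ col (j + 1, Sum.inr 0)
      have hk : min (i - 1) (m (j + 1) - 1) < m (j + 1) := by have := h0 (j + 1); omega
      rw [hmono (j + 1) 0 _ (h0 _) hk]
      refine h _ _ hi hk (Or.inr (Or.inl ⟨?_, by omega, rfl⟩))
      rw [add_assoc]; rfl
  exact no_five (c 0) (c 1) (c 2) (c 3) (c 4) (e1 0) (e2 0) (e2 3).symm (e1 4).symm (e1 1)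
    (e2 1) (e2 4).symm (e1 2) (e2 2) (e1 3)

def base : Fin 5 → Fin 4 := ![0, 1, 2, 3, 0]
def tg (γ : Fin 4) : Fin 5 → Fin 4 := ![γ, 0, 1, 2, 3]
def ta (γ : Fin 4) : Fin 5 → Fin 4 := ![3 - γ, 2, 0, 0, 1]
def tb : Fin 5 → Fin 4 := ![3, 3, 3, 1, 2]

theorem critical (M : ℕ) (hM : 1 ≤ M) (m : Fin 5 → ℕ) (hm : ∀ j, 2 ≤ m j)
    (hm' : ∀ j, m j ≤ 2 * M) (j0 : Fin 5) (t : ℕ) (ht : t ≤ 2 * M) (k0 : ℕ) (hk0 : k0 < m j0) :
    ∃ col : Pt → Fin 4, ∀ x y, R M m x y → col x = col y →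
      x = (j0, Sum.inl t) ∧ y = (j0, Sum.inr k0) := by
  obtain ⟨γ, hγ, hγ0, hγ1⟩ : ∃ γ : Fin 4, (γ = 1 ∨ γ = 2) ∧ (k0 = 0 → γ = 2) ∧
      (k0 ≠ 0 → γ = 1) := by
    by_cases h : k0 = 0
    · exact ⟨2, Or.inr rfl, fun _ => rfl, fun h' => absurd h h'⟩
    · exact ⟨1, Or.inl rfl, fun h' => absurd h' h, fun _ => rfl⟩
  let ctr : Fin 5 → ℕ := fun d => if d = 0 then t else if d = 1 then k0 + 1 else 0
  let col : Pt → Fin 4 := fun x => match x with
    | (j, Sum.inl i) => cyc (ctr (j - j0)) (tg γ (j - j0)) (ta γ (j - j0)) (tb (j - j0)) i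
    | (j, Sum.inr k) => if j - j0 = 0 ∧ k = k0 then γ else base (j - j0)
  have hctr : ∀ d, ctr d ≤ 2 * M := by
    intro d
    have := hm' j0
    simp only [ctr]
    split_ifs <;> omega
  refine ⟨col, ?_⟩
  rintro ⟨j, x⟩ ⟨j', y⟩ hR hc
  obtain ⟨d, rfl⟩ : ∃ d, j = j0 + d := ⟨j - j0, by abel⟩
  obtain ⟨d', rfl⟩ : ∃ d, j' = j0 + d := ⟨j' - j0, by abel⟩
  have e1 : ∀ d : Fin 5, j0 + d - j0 = d := fun d => by abel
  rcases x with i | k <;> rcases y with i' | k'
  · exfalso
    obtain ⟨h1, h2⟩ := hR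
    have h1 := add_left_cancel h1
    subst h1
    simp only [col, e1] at hc
    have T : ∀ γ : Fin 4, (γ = 1 ∨ γ = 2) → ∀ d : Fin 5,
        tg γ d ≠ ta γ d ∧ tg γ d ≠ tb d ∧ ta γ d ≠ tb d := by decide
    obtain ⟨a1, a2, a3⟩ := T γ hγ d'
    exact cyc_proper M _ hM (hctr _) _ _ _ a1 a2 a3 _ _ h2 hc
  · simp only [col, e1] at hc
    rcases hR with h1 | ⟨h1, h2, h2'⟩ | ⟨h1, h2, h3⟩
    · have h1 := add_left_cancel h1
      subst h1
      have T : ∀ γ : Fin 4, (γ = 1 ∨ γ = 2) → ∀ d : Fin 5,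
          tg γ d ≠ base d ∧ ta γ d ≠ base d ∧ tb d ≠ base d ∧ ta γ 0 ≠ γ ∧ tb 0 ≠ γ := by decide
      obtain ⟨a1, a2, a3, a4, a5⟩ := T γ hγ d'
      split_ifs at hc with h
      · obtain ⟨rfl, rfl⟩ := h
        by_cases hi : i = ctr 0
        · have : i = t := by simpa [ctr] using hi
          simp [this]
        · exact absurd hc (cyc_ne _ _ _ _ _ _ (fun h => absurd h hi) a4 a5)
      · exact absurd hc (cyc_ne _ _ _ _ _ _ (fun _ => a1) a2 a3)
    · exfalso
      rw [add_assoc] at h1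
      have h1 := add_left_cancel h1
      subst h1
      have T : ∀ γ : Fin 4, (γ = 1 ∨ γ = 2) → ∀ d : Fin 5,
          ta γ (d + 1) ≠ base d ∧ tb (d + 1) ≠ base d ∧ tg γ 0 ≠ base 4 ∧ tg γ 1 ≠ γ ∧
          (d + 1 = 0 → d = 4) ∧ (d + 1 = 1 → d = 0) ∧ ta 1 (0 + 1) ≠ 1 ∧ tb (0 + 1) ≠ 1 ∧
          tg 1 (0 + 1) ≠ 1 := by decide
      obtain ⟨a1, a2, a3, a4, a5, a6, a7, a8, a9⟩ := T γ hγ d'
      split_ifs at hc with h
      · obtain ⟨rfl, rfl⟩ := h
        by_cases hk : k' = 0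
        · have hi : i = ctr (0 + 1) := by
            have := hm (j0 + 0)
            have : i = k' + 1 := by omega
            simpa [ctr] using this
          unfold cyc at hc
          rw [if_pos hi] at hc
          exact a4 hc
        · obtain rfl := hγ1 hk
          exact cyc_ne _ _ _ _ _ _ (fun _ => a9) a7 a8 hc
      · refine cyc_ne _ _ _ _ _ _ (fun hi => ?_) a1 a2 hc
        simp only [ctr] at hi
        split_ifs at hi with g1 g2
        · obtain rfl := a5 g1
          exact a3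
        · obtain rfl := a6 g2
          refine absurd ⟨rfl, ?_⟩ h
          rw [add_zero] at h2'
          omega
        · omega
    · exfalso
      rw [add_assoc] at h1
      have h1 := add_left_cancel h1
      subst h1
      have T : ∀ γ : Fin 4, (γ = 1 ∨ γ = 2) → ∀ d : Fin 5,
          (d + 2 = 0 ∨ d + 2 = 1 → ta γ (d + 2) ≠ base d ∧ d ≠ 0) ∧
          (d + 2 ≠ 1 → tg γ (d + 2) ≠ base d) ∧ tg 2 (0 + 2) ≠ 2 := by decide
      obtain ⟨a1, a2, a3⟩ := T γ hγ d'
      rw [h2] at hc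
      by_cases g0 : d' + 2 = 0
      · obtain ⟨b1, b2⟩ := a1 (Or.inl g0)
        rw [if_neg (fun h => b2 h.1)] at hc
        exact cyc_zero _ _ _ _ _ (a2 (by rw [g0]; decide)) b1 hc
      · by_cases g1 : d' + 2 = 1
        · obtain ⟨b1, b2⟩ := a1 (Or.inr g1)
          rw [if_neg (fun h => b2 h.1)] at hc
          have hz : ctr (d' + 2) = k0 + 1 := by simp only [ctr, if_neg g0, if_pos g1]
          rw [hz] at hc
          have : cyc (k0 + 1) (tg γ (d' + 2)) (ta γ (d' + 2)) (tb (d' + 2)) 0 = ta γ (d' + 2) := by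
            simp [cyc]
          exact b1 (this ▸ hc)
        · have hz : ctr (d' + 2) = 0 := by simp only [ctr, if_neg g0, if_neg g1]
          rw [hz] at hc
          have : cyc 0 (tg γ (d' + 2)) (ta γ (d' + 2)) (tb (d' + 2)) 0 = tg γ (d' + 2) := by
            simp [cyc]
          rw [this] at hc
          split_ifs at hc with h
          · obtain ⟨rfl, h⟩ := h
            obtain rfl := hγ0 (by omega)
            exact a3 hc
          · exact a2 g1 hc
  · exact hR.elim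
  · exfalso
    obtain ⟨h1, h2, h3⟩ := hR
    simp only [col, e1] at hc
    have h3' : d' = d + 2 := by
      rw [add_assoc] at h3
      exact add_left_cancel h3
    have T : ∀ d d' : Fin 5, d' = d + 2 →
        base d ≠ base d' ∧ (d = 0 → 1 ≠ base d' ∧ d' ≠ 0) ∧ (d' = 0 → base d ≠ 2) := by decide
    obtain ⟨a1, a2, a3⟩ := T d d' h3'
    split_ifs at hc with g1 g2 g2
    · exact (a2 g1.1).2 g2.1
    · obtain ⟨g1, rfl⟩ := g1
      rw [hγ1 (by omega)] at hc
      exact (a2 g1).1 hc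
    · obtain ⟨g2, rfl⟩ := g2
      rw [hγ0 h2] at hc
      exact a3 g2 hc
    · exact a1 hc

/-- The vertex set as a finite set of codes. -/
def vs (M : ℕ) (m : Fin 5 → ℕ) : Finset Pt :=
  Finset.univ.biUnion fun j : Fin 5 =>
    ((Finset.range (2 * M + 1)).disjSum (Finset.range (m j))).image fun y => (j, y)

theorem mem_vs (M : ℕ) (m : Fin 5 → ℕ) (x : Pt) : x ∈ vs M m ↔ Ok M m x := by
  obtain ⟨j, y⟩ := x
  rcases y with i | k <;> simp [vs, Ok]

theorem card_vs (M : ℕ) (m : Fin 5 → ℕ) : (vs M m).card = 5 * (2 * M + 1) + ∑ j, m j := by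
  unfold vs
  rw [Finset.card_biUnion]
  · have : ∀ j : Fin 5, (((Finset.range (2 * M + 1)).disjSum (Finset.range (m j))).image
        fun y => ((j, y) : Pt)).card = (2 * M + 1) + m j := by
      intro j
      rw [Finset.card_image_of_injective _ (fun a b h => (Prod.ext_iff.1 h).2)]
      simp
    simp only [this, Finset.sum_add_distrib]
    simp
    ring
  · intro j _ j' _ hne
    simp only [Function.onFun]
    rw [Finset.disjoint_left]
    intro x hx hx'
    obtain ⟨a, -, rfl⟩ := Finset.mem_image.1 hx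
    obtain ⟨b, -, hb⟩ := Finset.mem_image.1 hx'
    exact hne (Prod.ext_iff.1 hb).1.symm

/-- The symmetric relation. -/
def S (M : ℕ) (m : Fin 5 → ℕ) (x y : Pt) : Prop := R M m x y ∨ R M m y x

theorem no_ZZZ (M : ℕ) (hM : 2 ≤ M) (m : Fin 5 → ℕ) (j1 j2 j3 : Fin 5) (i1 i2 i3 : ℕ)
    (h12 : S M m (j1, Sum.inl i1) (j2, Sum.inl i2)) (h13 : S M m (j1, Sum.inl i1) (j3, Sum.inl i3))
    (h23 : S M m (j2, Sum.inl i2) (j3, Sum.inl i3)) : False := by
  simp only [S, R] at h12 h13 h23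
  omega

theorem no_WW (M : ℕ) (m : Fin 5 → ℕ) (j1 j2 : Fin 5) (k1 k2 : ℕ) (z : Pt)
    (h12 : S M m (j1, Sum.inr k1) (j2, Sum.inr k2)) (h13 : S M m (j1, Sum.inr k1) z)
    (h23 : S M m (j2, Sum.inr k2) z) : False := by
  obtain ⟨j3, i | k⟩ := z
  · simp only [S, R, false_or] at h12 h13 h23
    omega
  · simp only [S, R] at h12 h13 h23
    omega

theorem S_symm {M : ℕ} {m : Fin 5 → ℕ} {x y : Pt} (h : S M m x y) : S M m y x := Or.symm h

theorem no_four (M : ℕ) (hM : 2 ≤ M) (m : Fin 5 → ℕ) (a b c d : Pt)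
    (hab : S M m a b) (hac : S M m a c) (had : S M m a d) (hbc : S M m b c) (hbd : S M m b d)
    (hcd : S M m c d) : False := by
  obtain ⟨ja, a | a⟩ := a <;> obtain ⟨jb, b | b⟩ := b <;> obtain ⟨jc, c | c⟩ := c <;>
    obtain ⟨jd, d | d⟩ := d
  all_goals first
    | exact no_ZZZ M hM m _ _ _ _ _ _ hab hac hbc
    | exact no_ZZZ M hM m _ _ _ _ _ _ hab had hbd
    | exact no_ZZZ M hM m _ _ _ _ _ _ hac had hcd
    | exact no_ZZZ M hM m _ _ _ _ _ _ hbc hbd hcd
    | exact no_WW M m _ _ _ _ _ hab hac hbc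
    | exact no_WW M m _ _ _ _ _ hac hab (S_symm hbc)
    | exact no_WW M m _ _ _ _ _ had hab (S_symm hbd)
    | exact no_WW M m _ _ _ _ _ hbc (S_symm hab) (S_symm hac)
    | exact no_WW M m _ _ _ _ _ hbd (S_symm hab) (S_symm had)
    | exact no_WW M m _ _ _ _ _ hcd (S_symm hac) (S_symm had)

theorem main_m (M : ℕ) (hM : 2 ≤ M) (m : Fin 5 → ℕ) (hm : ∀ j, 2 ≤ m j) (hm' : ∀ j, m j ≤ 2 * M)
    (D : ℕ) (hD : ∀ j, D ≤ m j) (n : ℕ) (hn : n = 5 * (2 * M + 1) + ∑ j, m j) :
    ∃ G : SimpleGraph (Fin n), G.chromaticNumber = 5 ∧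
      (∀ e ∈ G.edgeSet, (G.deleteEdges {e}).chromaticNumber < 5) ∧ G.CliqueFree 4 ∧
      ∀ v : Fin n, D ≤ (G.neighborSet v).ncard := by
  classical
  have hcard : Fintype.card (vs M m) = n := by rw [Fintype.card_coe, card_vs, hn]
  let e : Fin n ≃ vs M m := (Fintype.equivFinOfCardEq hcard).symm
  let G : SimpleGraph (Fin n) := SimpleGraph.fromRel fun a b => R M m (e a).1 (e b).1
  let back : ∀ x : Pt, Ok M m x → Fin n := fun x hx => e.symm ⟨x, (mem_vs M m x).2 hx⟩
  have hback : ∀ x hx, (e (back x hx)).1 = x := fun x hx => by simp [back]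
  have hinj : ∀ x hx y hy, back x hx = back y hy → x = y := by
    intro x hx y hy h
    rw [← hback x hx, h, hback y hy]
  have hG : ¬ G.Colorable 4 := by
    rintro ⟨C⟩
    refine not_colourable M m hm (fun x => if hx : Ok M m x then C (back x hx) else 0) ?_
    intro a b ha hb hab
    simp only [dif_pos ha, dif_pos hb]
    apply C.valid
    simp only [G, fromRel_adj, hback]
    refine ⟨?_, Or.inl hab⟩
    intro heq
    have heq := hinj a ha b hb heq
    subst heq
    obtain ⟨col, hcol⟩ := critical M (by omega) m hm hm' 0 0 (by omega) 0 (by have := hm 0; omega)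
    obtain ⟨h1, h2⟩ := hcol a a hab rfl
    rw [h1] at h2
    simp at h2
  obtain ⟨H, hle, h1, h2, h3⟩ := exists_critical_le G hG
  have hadj : ∀ j i k (hi : Ok M m (j, Sum.inl i)) (hk : Ok M m (j, Sum.inr k)),
      H.Adj (back _ hi) (back _ hk) := by
    intro j i k hi hk
    apply h3
    · simp only [G, fromRel_adj, hback]
      refine ⟨?_, Or.inl (Or.inl rfl)⟩
      intro heq
      have heq := hinj _ hi _ hk heq
      simp at heq
    · obtain ⟨col, hcol⟩ := critical M (by omega) m hm hm' j i hi k hk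
      refine ⟨Coloring.mk (fun a => col (e a).1) ?_⟩
      intro a b hab hc
      rw [deleteEdges_adj] at hab
      obtain ⟨hab, hne⟩ := hab
      apply hne
      simp only [G, fromRel_adj] at hab
      simp only [Set.mem_singleton_iff, Sym2.eq_iff]
      have hb : ∀ (a : Fin n) x (hx : Ok M m x), (e a).1 = x → a = back x hx := by
        intro a x hx h
        subst h
        simp [back]
      rcases hab.2 with hr | hr
      · obtain ⟨g1, g2⟩ := hcol _ _ hr hc
        exact Or.inl ⟨hb _ _ hi g1, hb _ _ hk g2⟩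
      · obtain ⟨g1, g2⟩ := hcol _ _ hr hc.symm
        exact Or.inr ⟨hb _ _ hk g2, hb _ _ hi g1⟩
  refine ⟨H, h1, h2, ?_, fun v => ?_⟩
  · refine CliqueFree.anti hle ?_
    intro s hs
    obtain ⟨a, b, c, d, nab, nac, nad, nbc, nbd, ncd, rfl⟩ := Finset.card_eq_four.1 hs.card_eq
    have hq := hs.isClique
    have hab : G.Adj a b := hq (by simp) (by simp) nab
    have hac : G.Adj a c := hq (by simp) (by simp) nac
    have had : G.Adj a d := hq (by simp) (by simp) nad
    have hbc : G.Adj b c := hq (by simp) (by simp) nbc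
    have hbd : G.Adj b d := hq (by simp) (by simp) nbd
    have hcd : G.Adj c d := hq (by simp) (by simp) ncd
    have f : ∀ {x y : Fin n}, G.Adj x y → S M m (e x).1 (e y).1 := by
      intro x y h
      simp only [G, fromRel_adj] at h
      exact h.2
    exact no_four M hM m _ _ _ _ (f hab) (f hac) (f had) (f hbc) (f hbd) (f hcd)
  · have gen : ∀ f : Fin D → Fin n, Function.Injective f →
        (∀ k, H.Adj v (f k)) → D ≤ (H.neighborSet v).ncard := by
      intro f hf hf'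
      have : (Set.range f).ncard = D := by
        rw [Set.ncard_range_of_injective hf]; simp
      refine this.symm.le.trans (Set.ncard_le_ncard ?_ (Set.toFinite _))
      rintro _ ⟨k, rfl⟩
      exact hf' k
    obtain ⟨⟨⟨j, x⟩, hx⟩, rfl⟩ := e.symm.surjective v
    have hx' := (mem_vs M m _).1 hx
    rcases x with i | k
    · have hk : ∀ k : Fin D, Ok M m (j, Sum.inr k.val) := fun k => lt_of_lt_of_le k.2 (hD j)
      refine gen (fun k => back _ (hk k)) ?_ (fun k => hadj j i k hx' (hk k))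
      intro a b hab
      have := hinj _ (hk a) _ (hk b) hab
      simpa [Fin.ext_iff] using this
    · have hi : ∀ i : Fin D, Ok M m (j, Sum.inl i.val) := fun i =>
        (i.2.le.trans (hD j)).trans (hm' j)
      refine gen (fun i => back _ (hi i)) ?_ (fun i => (hadj j i k (hi i) hx').symm)
      intro a b hab
      have := hinj _ (hi a) _ (hi b) hab
      simpa [Fin.ext_iff] using this

theorem main (n : ℕ) (hn : 46 ≤ n) :
    ∃ G : SimpleGraph (Fin n), G.chromaticNumber = 5 ∧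
      (∀ e ∈ G.edgeSet, (G.deleteEdges {e}).chromaticNumber < 5) ∧ G.CliqueFree 4 ∧
      ∀ v : Fin n, n < 10 * (G.neighborSet v).ncard + 30 := by
  obtain ⟨M, r, hM, hr, hnr⟩ : ∃ M r : ℕ, 3 ≤ M ∧ r ≤ 19 ∧ n + r = 20 * M + 5 :=
    ⟨(n + 14) / 20, 20 * ((n + 14) / 20) + 5 - n, by omega, by omega, by omega⟩
  obtain ⟨G, h1, h2, h3, h4⟩ := main_m M (by omega) (fun j => 2 * M - (r + j.val) / 5)
    (fun j => by have := j.2; omega) (fun j => by omega) (2 * M - (r + 4) / 5)
    (fun j => by have := j.2; omega) n (by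
      simp only [Fin.sum_univ_five]
      show n = 5 * (2 * M + 1) + (2 * M - (r + 0) / 5 + (2 * M - (r + 1) / 5) +
        (2 * M - (r + 2) / 5) + (2 * M - (r + 3) / 5) + (2 * M - (r + 4) / 5))
      omega)
  refine ⟨G, h1, h2, h3, fun v => ?_⟩
  have := h4 v
  omega

end Pool.Agent.P.MP_2b0d5b_co.Five
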