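import Mathlib

/-
5-critical graphs with linear minimum degree.

Nine blocks `j : Fin 9`. Block `j` has an odd cycle `Z j` on `2M+1` vertices, joined completely to
an independent set `W j` on `2M` vertices. In a 4-colouring `W j` is therefore monochromatic, of a
colour `c j` that `Z j` avoids. The vertices of `Z (j+1)` other than vertex 0 are matched to `W j`,
vertex 0 of `Z (j+1)` is joined to one vertex of `W (j-2)`, and single edges join `W j` to
`W (j+3)` and to `W (j+4)`. Then `c` is a proper 4-colouring of the complement of the 9-cycle,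
which is impossible; deleting any edge between `Z j` and `W j` leaves a 4-colourable graph. An
edge-minimal non-4-colourable spanning subgraph is 5-critical and keeps all these edges, so its
minimum degree is at least `2M`, on `9(4M+1)` vertices.
-/

set_option autoImplicit false

namespace Pool.Agent.P.MP_2b0d5b_co

open SimpleGraph

/-- From a non-4-colourable graph, pass to an edge-minimal non-4-colourable spanning subgraph.
It is 5-critical and keeps every edge whose removal makes the big graph 4-colourable. -/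
theorem exists_critical {V : Type} [Fintype V] (G : SimpleGraph V) (hG : ¬ G.Colorable 4) :
    ∃ H : SimpleGraph V, H.chromaticNumber = 5 ∧
      (∀ e ∈ H.edgeSet, (H.deleteEdges {e}).chromaticNumber < 5) ∧
      ∀ a b, G.Adj a b → (G.deleteEdges {s(a, b)}).Colorable 4 → H.Adj a b := by
  classical
  obtain ⟨H, ⟨hHG, hH⟩, hmin⟩ :=
    (wellFounded_lt (α := SimpleGraph V)).has_min {H | H ≤ G ∧ ¬ H.Colorable 4} ⟨G, le_rfl, hG⟩
  have hdel : ∀ e ∈ H.edgeSet, (H.deleteEdges {e}).Colorable 4 := by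
    intro e he
    by_contra hc
    refine hmin (H.deleteEdges {e}) ⟨(H.deleteEdges_le _).trans hHG, hc⟩ ?_
    refine lt_of_le_of_ne (H.deleteEdges_le _) ?_
    intro heq
    have : e ∈ (H.deleteEdges {e}).edgeSet := by rw [heq]; exact he
    simp [edgeSet_deleteEdges] at this
  refine ⟨H, ?_, ?_, ?_⟩
  · have h5 : H.Colorable 5 := by
      by_cases hb : H = ⊥
      · exfalso
        apply hH
        exact (colorable_one_iff.2 hb).mono (by norm_num)
      · obtain ⟨a, b, hab⟩ : ∃ a b, H.Adj a b := by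
          by_contra hne
          push Not at hne
          apply hb
          ext a b
          simp [hne a b]
        obtain ⟨C⟩ := hdel s(a, b) hab
        refine ⟨Coloring.mk (fun v => if v = a then (4 : Fin 5) else (C v).castSucc) ?_⟩
        intro v w hvw
        by_cases hv : v = a
        · have hw : w ≠ a := by
            rintro rfl
            exact hvw.ne hv
          simp only [hv, hw, if_true, if_false]
          exact (Fin.castSucc_ne_last (C w)).symm
        · by_cases hw : w = a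
          · simp only [hv, hw, if_true, if_false]
            exact Fin.castSucc_ne_last (C v)
          · simp only [hv, hw, if_false]
            intro h
            have h' : C v = C w := Fin.castSucc_injective _ h
            refine C.valid (v := v) (w := w) ?_ h'
            rw [deleteEdges_adj]
            refine ⟨hvw, ?_⟩
            simp only [Set.mem_singleton_iff, Sym2.eq_iff]
            rintro (⟨h1, _⟩ | ⟨_, h2⟩)
            · exact hv h1
            · exact hw h2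
    have := (chromaticNumber_eq_iff_colorable_not_colorable (G := H) (n := 4)).2 ⟨h5, hH⟩
    rw [this]; rfl
  · intro e he
    have := (hdel e he).chromaticNumber_le
    exact lt_of_le_of_lt this (by norm_num)
  · intro a b hab hc
    by_contra hn
    apply hH
    refine hc.mono_left ?_
    intro x y hxy
    rw [deleteEdges_adj]
    refine ⟨hHG hxy, ?_⟩
    simp only [Set.mem_singleton_iff, Sym2.eq_iff]
    rintro (⟨rfl, rfl⟩ | ⟨rfl, rfl⟩)
    · exact hn hxy
    · exact hn hxy.symm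

theorem two_left : ∀ a b x y z : Fin 4, a ≠ b → x ≠ a → x ≠ b → y ≠ a → y ≠ b → z ≠ a → z ≠ b →
    x ≠ y → y ≠ z → x = z := by decide

/-- An odd cycle cannot be coloured properly while avoiding two of the four colours. -/
theorem odd_cycle (M : ℕ) (f : Fin (2 * M + 1) → Fin 4)
    (h1 : ∀ i j : Fin (2 * M + 1), j.val = i.val + 1 → f i ≠ f j)
    (h2 : ∀ i j : Fin (2 * M + 1), i.val = 2 * M → j.val = 0 → f i ≠ f j)
    (a b : Fin 4) (hab : a ≠ b) (ha : ∀ i, f i ≠ a) (hb : ∀ i, f i ≠ b) : False := by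
  have key : ∀ k, ∀ hk : k ≤ M, f ⟨0, by omega⟩ = f ⟨2 * k, by omega⟩ := by
    intro k
    induction k with
    | zero => intro _; rfl
    | succ k ih =>
      intro hk
      rw [ih (by omega)]
      exact two_left a b _ (f ⟨2 * k + 1, by omega⟩) _ hab (ha _) (hb _) (ha _) (hb _) (ha _) (hb _)
        (h1 _ _ rfl) (h1 _ _ (by simp; ring))
  exact h2 ⟨2 * M, by omega⟩ ⟨0, by omega⟩ rfl rfl (key M le_rfl).symm

/-- Vertices: nine blocks, each an odd cycle (left) and an independent set (right). -/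
abbrev Vx (M : ℕ) : Type := Fin 9 × (Fin (2 * M + 1) ⊕ Fin (2 * M))

/-- The edges, oriented. -/
def R (M : ℕ) : Vx M → Vx M → Prop
  | (j, Sum.inl i), (j', Sum.inl i') =>
      j' = j ∧ (i'.val = i.val + 1 ∨ (i.val = 2 * M ∧ i'.val = 0))
  | (j, Sum.inl i), (j', Sum.inr k) =>
      j' = j ∨ (j = j' + 1 ∧ i.val = k.val + 1) ∨ (j = j' + 3 ∧ i.val = 0 ∧ k.val = 0)
  | (_, Sum.inr _), (_, Sum.inl _) => False
  | (j, Sum.inr k), (j', Sum.inr k') => k.val = 1 ∧ k'.val = 0 ∧ (j' = j + 3 ∨ j' = j + 4)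

set_option synthInstance.maxSize 100000 in
theorem no_nine : ∀ c0 c2 : Fin 4, c0 ≠ c2 → ∀ c4 : Fin 4, c0 ≠ c4 → c2 ≠ c4 →
    ∀ c6 : Fin 4, c0 ≠ c6 → c2 ≠ c6 → c4 ≠ c6 → ∀ c8 : Fin 4, c2 ≠ c8 → c4 ≠ c8 → c6 ≠ c8 →
    ∀ c1 : Fin 4, c4 ≠ c1 → c6 ≠ c1 → c8 ≠ c1 → ∀ c3 : Fin 4, c0 ≠ c3 → c6 ≠ c3 → c1 ≠ c3 →
    ∀ c5 : Fin 4, c0 ≠ c5 → c1 ≠ c5 → c2 ≠ c5 → c3 ≠ c5 →
    ∀ c7 : Fin 4, c0 ≠ c7 → c1 ≠ c7 → c2 ≠ c7 → c3 ≠ c7 → c4 ≠ c7 → c5 ≠ c7 → False := by
  decide

theorem not_colourable (M : ℕ) (hM : 1 ≤ M) (col : Vx M → Fin 4)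
    (h : ∀ a b, R M a b → col a ≠ col b) : False := by
  have hcyc : ∀ j : Fin 9, ∀ a b : Fin 4, a ≠ b → (∀ i, col (j, Sum.inl i) ≠ a) →
      (∀ i, col (j, Sum.inl i) ≠ b) → False := by
    intro j a b hab ha hb
    refine odd_cycle M (fun i => col (j, Sum.inl i)) ?_ ?_ a b hab ha hb
    · intro i i' hi
      exact h _ _ ⟨rfl, Or.inl hi⟩
    · intro i i' hi hi'
      exact h _ _ ⟨rfl, Or.inr ⟨hi, hi'⟩⟩
  have hZW : ∀ j i k, col (j, Sum.inl i) ≠ col (j, Sum.inr k) := fun j i k => h _ _ (Or.inl rfl)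
  have hmono : ∀ j k k', col (j, Sum.inr k) = col (j, Sum.inr k') := by
    intro j k k'
    by_contra hne
    exact hcyc j _ _ hne (fun i => hZW j i k) (fun i => hZW j i k')
  let k0 : Fin (2 * M) := ⟨0, by omega⟩
  let k1 : Fin (2 * M) := ⟨1, by omega⟩
  let c : Fin 9 → Fin 4 := fun j => col (j, Sum.inr k0)
  have h3 : ∀ j, c j ≠ c (j + 3) := by
    intro j
    show col (j, Sum.inr k0) ≠ col (j + 3, Sum.inr k0)
    rw [hmono j k0 k1]
    exact h _ _ ⟨rfl, rfl, Or.inl rfl⟩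
  have h4 : ∀ j, c j ≠ c (j + 4) := by
    intro j
    show col (j, Sum.inr k0) ≠ col (j + 4, Sum.inr k0)
    rw [hmono j k0 k1]
    exact h _ _ ⟨rfl, rfl, Or.inr rfl⟩
  have h2 : ∀ j, c j ≠ c (j + 2) := by
    intro j heq
    refine hcyc (j + 3) (c j) (c (j + 3)) (h3 j) ?_ (fun i => hZW _ i k0)
    intro i
    by_cases hi : i.val = 0
    · exact h _ _ (Or.inr (Or.inr ⟨rfl, hi, rfl⟩))
    · rw [heq]
      show col (j + 3, Sum.inl i) ≠ col (j + 2, Sum.inr k0)
      rw [hmono (j + 2) k0 ⟨i.val - 1, by omega⟩]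
      refine h _ _ (Or.inr (Or.inl ⟨?_, ?_⟩))
      · rw [add_assoc]; rfl
      · show i.val = i.val - 1 + 1
        omega
  exact no_nine (c 0) (c 2) (h2 0) (c 4) (h4 0) (h2 2) (c 6) (h3 6).symm (h4 2) (h2 4)
    (c 8) (h3 8).symm (h4 4) (h2 6) (c 1) (h3 1).symm (h4 6) (h2 8) (c 3) (h3 0) (h3 3).symm
    (h2 1) (c 5) (h4 5).symm (h4 1) (h3 2) (h2 3) (c 7) (h2 7).symm (h3 7).symm (h4 7).symm
    (h4 3) (h3 4) (h2 5)

/-- Colouring of the odd cycle: the vertex `t` gets `g`, the others alternate `a`, `b`. -/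
def cyc (t : ℕ) (g a b : Fin 4) (i : ℕ) : Fin 4 :=
  if i = t then g else if (if i < t then i + 1 else i) % 2 = 1 then a else b

theorem cyc_proper (M t : ℕ) (hM : 1 ≤ M) (ht : t ≤ 2 * M) (g a b : Fin 4) (hga : g ≠ a)
    (hgb : g ≠ b) (hab : a ≠ b) (i i' : ℕ) (h : i' = i + 1 ∨ (i = 2 * M ∧ i' = 0)) :
    cyc t g a b i ≠ cyc t g a b i' := by
  unfold cyc
  rcases h with rfl | ⟨rfl, rfl⟩ <;> split_ifs <;> omega

theorem cyc_ne (t : ℕ) (g a b x : Fin 4) (i : ℕ) (hg : i = t → g ≠ x) (ha : a ≠ x) (hb : b ≠ x) :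
    cyc t g a b i ≠ x := by
  unfold cyc
  split_ifs with h1 <;> first | exact hg h1 | exact ha | exact hb

theorem cyc_zero (t : ℕ) (g a b x : Fin 4) (hg : g ≠ x) (ha : a ≠ x) : cyc t g a b 0 ≠ x := by
  unfold cyc
  split_ifs <;> first | exact hg | exact ha | omega

def base : Fin 9 → Fin 4 := ![0, 1, 1, 2, 2, 3, 3, 0, 0]
def tg (γ : Fin 4) : Fin 9 → Fin 4 := ![γ, 0, 2, 1, 0, 2, 0, 3, 1]
def ta (γ : Fin 4) : Fin 9 → Fin 4 := ![3 - γ, 2, 3, 3, 3, 0, 1, 1, 2]
def tb : Fin 9 → Fin 4 := ![3, 3, 0, 0, 1, 1, 2, 2, 3]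

theorem critical (M : ℕ) (hM : 1 ≤ M) (j0 : Fin 9) (t : Fin (2 * M + 1)) (k0 : Fin (2 * M)) :
    ∃ col : Vx M → Fin 4, ∀ x y, R M x y → col x = col y →
      x = (j0, Sum.inl t) ∧ y = (j0, Sum.inr k0) := by
  obtain ⟨γ, hγ, hγ0, hγ1⟩ : ∃ γ : Fin 4, (γ = 1 ∨ γ = 2) ∧ (k0.val = 0 → γ = 2) ∧
      (k0.val = 1 → γ = 1) := by
    by_cases h : k0.val = 0
    · exact ⟨2, Or.inr rfl, fun _ => rfl, fun h' => by omega⟩
    · exact ⟨1, Or.inl rfl, fun h' => absurd h' h, fun _ => rfl⟩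
  let ctr : Fin 9 → ℕ := fun d => if d = 0 then t.val else if d = 1 then k0.val + 1 else 0
  let col : Vx M → Fin 4 := fun x => match x with
    | (j, Sum.inl i) => cyc (ctr (j - j0)) (tg γ (j - j0)) (ta γ (j - j0)) (tb (j - j0)) i.val
    | (j, Sum.inr k) => if j - j0 = 0 ∧ k = k0 then γ else base (j - j0)
  have hctr : ∀ d, ctr d ≤ 2 * M := by
    intro d
    simp only [ctr]
    split_ifs <;> omega
  refine ⟨col, ?_⟩
  rintro ⟨j, x⟩ ⟨j', y⟩ hR hc
  obtain ⟨d, rfl⟩ : ∃ d, j = j0 + d := ⟨j - j0, by abel⟩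
  obtain ⟨d', rfl⟩ : ∃ d, j' = j0 + d := ⟨j' - j0, by abel⟩
  have e1 : ∀ d : Fin 9, j0 + d - j0 = d := fun d => by abel
  rcases x with i | k <;> rcases y with i' | k'
  · exfalso
    obtain ⟨h1, h2⟩ := hR
    have h1 := add_left_cancel h1
    subst h1
    simp only [col, e1] at hc
    have T : ∀ γ : Fin 4, (γ = 1 ∨ γ = 2) → ∀ d : Fin 9,
        tg γ d ≠ ta γ d ∧ tg γ d ≠ tb d ∧ ta γ d ≠ tb d := by decide
    obtain ⟨a1, a2, a3⟩ := T γ hγ d'
    exact cyc_proper M _ hM (hctr _) _ _ _ a1 a2 a3 _ _ h2 hc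
  · simp only [col, e1] at hc
    rcases hR with h1 | ⟨h1, h2⟩ | ⟨h1, h2, h3⟩
    · have h1 := add_left_cancel h1
      subst h1
      have T : ∀ γ : Fin 4, (γ = 1 ∨ γ = 2) → ∀ d : Fin 9,
          tg γ d ≠ base d ∧ ta γ d ≠ base d ∧ tb d ≠ base d ∧ ta γ 0 ≠ γ ∧ tb 0 ≠ γ := by decide
      obtain ⟨a1, a2, a3, a4, a5⟩ := T γ hγ d'
      split_ifs at hc with h
      · obtain ⟨rfl, rfl⟩ := h
        by_cases hi : i.val = ctr 0
        · have : i = t := Fin.ext (by simpa [ctr] using hi)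
          simp [this]
        · exact absurd hc (cyc_ne _ _ _ _ _ _ (fun h => absurd h hi) a4 a5)
      · exact absurd hc (cyc_ne _ _ _ _ _ _ (fun _ => a1) a2 a3)
    · exfalso
      rw [add_assoc] at h1
      have h1 := add_left_cancel h1
      subst h1
      have T : ∀ γ : Fin 4, (γ = 1 ∨ γ = 2) → ∀ d : Fin 9,
          ta γ (d + 1) ≠ base d ∧ tb (d + 1) ≠ base d ∧ tg γ 0 ≠ base 8 ∧ tg γ 1 ≠ γ ∧
          (d + 1 = 0 → d = 8) ∧ (d + 1 = 1 → d = 0) := by decide
      obtain ⟨a1, a2, a3, a4, a5, a6⟩ := T γ hγ d'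
      split_ifs at hc with h
      · obtain ⟨rfl, rfl⟩ := h
        have hi : i.val = ctr (0 + 1) := by simpa [ctr] using h2
        unfold cyc at hc
        rw [if_pos hi] at hc
        exact a4 hc
      · refine cyc_ne _ _ _ _ _ _ (fun hi => ?_) a1 a2 hc
        simp only [ctr] at hi
        split_ifs at hi with g1 g2
        · obtain rfl := a5 g1
          exact a3
        · obtain rfl := a6 g2
          exact absurd ⟨rfl, Fin.ext (by omega)⟩ h
        · omega
    · exfalso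
      rw [add_assoc] at h1
      have h1 := add_left_cancel h1
      subst h1
      have T : ∀ γ : Fin 4, (γ = 1 ∨ γ = 2) → ∀ d : Fin 9,
          ta γ (d + 3) ≠ base d ∧ (d + 3 ≠ 1 → tg γ (d + 3) ≠ base d) ∧
          (d + 3 = 1 → tb (d + 3) ≠ base d) ∧ tg 2 (0 + 3) ≠ 2 ∧ ta 2 (0 + 3) ≠ 2 := by decide
      obtain ⟨a1, a2, a3, a4, a5⟩ := T γ hγ d'
      rw [h2] at hc
      split_ifs at hc with h
      · obtain ⟨rfl, rfl⟩ := h
        obtain rfl := hγ0 h3
        exact cyc_zero _ _ _ _ _ a4 a5 hc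
      · by_cases g : d' + 3 = 1
        · refine cyc_ne _ _ _ _ _ _ (fun hi => ?_) a1 (a3 g) hc
          simp [ctr, g] at hi
        · exact cyc_zero _ _ _ _ _ (a2 g) a1 hc
  · exact hR.elim
  · exfalso
    obtain ⟨h1, h2, h3⟩ := hR
    simp only [col, e1] at hc
    have h3' : d' = d + 3 ∨ d' = d + 4 := by
      rcases h3 with h3 | h3 <;> rw [add_assoc] at h3
      · exact Or.inl (add_left_cancel h3)
      · exact Or.inr (add_left_cancel h3)
    have T : ∀ d d' : Fin 9, (d' = d + 3 ∨ d' = d + 4) →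
        base d ≠ base d' ∧ (d = 0 → 1 ≠ base d' ∧ d' ≠ 0) ∧ (d' = 0 → base d ≠ 2) := by decide
    obtain ⟨a1, a2, a3⟩ := T d d' h3'
    split_ifs at hc with g1 g2 g2
    · exact (a2 g1.1).2 g2.1
    · obtain ⟨g1, rfl⟩ := g1
      rw [hγ1 h1] at hc
      exact (a2 g1).1 hc
    · obtain ⟨g2, rfl⟩ := g2
      rw [hγ0 h2] at hc
      exact a3 g2 hc
    · exact a1 hc

theorem main : ∃ c : ℝ, 0 < c ∧ ∀ N : ℕ, ∃ n : ℕ, N ≤ n ∧
      ∃ G : SimpleGraph (Fin n),
        G.chromaticNumber = 5 ∧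
        (∀ e ∈ G.edgeSet, (G.deleteEdges {e}).chromaticNumber < 5) ∧
        ∀ v : Fin n, c * (n : ℝ) ≤ ((G.neighborSet v).ncard : ℝ) := by
  classical
  refine ⟨1 / 27, by norm_num, fun N => ?_⟩
  obtain ⟨M, hM, hN⟩ : ∃ M, 1 ≤ M ∧ N ≤ M := ⟨N + 1, by omega, by omega⟩
  have hcard : Fintype.card (Vx M) = 9 * (4 * M + 1) := by
    simp [Vx]; ring
  refine ⟨9 * (4 * M + 1), by omega, ?_⟩
  let e : Fin (9 * (4 * M + 1)) ≃ Vx M := (Fintype.equivFinOfCardEq hcard).symm
  let G : SimpleGraph (Fin (9 * (4 * M + 1))) := SimpleGraph.fromRel fun a b => R M (e a) (e b)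
  have hG : ¬ G.Colorable 4 := by
    rintro ⟨C⟩
    refine not_colourable M hM (fun x => C (e.symm x)) ?_
    intro a b hab
    apply C.valid
    simp only [G, fromRel_adj, Equiv.apply_symm_apply]
    refine ⟨?_, Or.inl hab⟩
    intro heq
    have heq := e.symm.injective heq
    subst heq
    obtain ⟨col, hcol⟩ := critical M hM 0 ⟨0, by omega⟩ ⟨0, by omega⟩
    obtain ⟨h1, h2⟩ := hcol a a hab rfl
    rw [h1] at h2
    simp at h2
  obtain ⟨H, h1, h2, h3⟩ := exists_critical G hG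
  have hadj : ∀ j i k, H.Adj (e.symm (j, Sum.inl i)) (e.symm (j, Sum.inr k)) := by
    intro j i k
    apply h3
    · simp only [G, fromRel_adj, Equiv.apply_symm_apply]
      refine ⟨?_, Or.inl (Or.inl rfl)⟩
      intro heq
      have heq := e.symm.injective heq
      simp at heq
    · obtain ⟨col, hcol⟩ := critical M hM j i k
      refine ⟨Coloring.mk (fun a => col (e a)) ?_⟩
      intro a b hab hc
      rw [deleteEdges_adj] at hab
      obtain ⟨hab, hne⟩ := hab
      apply hne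
      simp only [G, fromRel_adj] at hab
      simp only [Set.mem_singleton_iff, Sym2.eq_iff]
      rcases hab.2 with hr | hr
      · obtain ⟨g1, g2⟩ := hcol _ _ hr hc
        exact Or.inl ⟨by rw [← g1]; simp, by rw [← g2]; simp⟩
      · obtain ⟨g1, g2⟩ := hcol _ _ hr hc.symm
        exact Or.inr ⟨by rw [← g2]; simp, by rw [← g1]; simp⟩
  refine ⟨H, h1, h2, fun v => ?_⟩
  have hdeg : 2 * M ≤ (H.neighborSet v).ncard := by
    obtain ⟨⟨j, x⟩, rfl⟩ := e.symm.surjective v
    have gen : ∀ f : Fin (2 * M) → Fin (9 * (4 * M + 1)), Function.Injective f →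
        (∀ k, H.Adj (e.symm (j, x)) (f k)) → 2 * M ≤ (H.neighborSet (e.symm (j, x))).ncard := by
      intro f hf hf'
      have : (Set.range f).ncard = 2 * M := by
        rw [Set.ncard_range_of_injective hf]; simp
      refine this.symm.le.trans (Set.ncard_le_ncard ?_ (Set.toFinite _))
      rintro _ ⟨k, rfl⟩
      exact hf' k
    rcases x with i | k
    · refine gen (fun k => e.symm (j, Sum.inr k)) ?_ (fun k => hadj j i k)
      intro a b hab
      simpa using hab
    · refine gen (fun i => e.symm (j, Sum.inl i.castSucc)) ?_ (fun i => (hadj j _ k).symm)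
      intro a b hab
      simpa using hab
  have h1 : ((2 * M : ℕ) : ℝ) ≤ ((H.neighborSet v).ncard : ℝ) := by exact_mod_cast hdeg
  have h2 : (1 : ℝ) ≤ M := by exact_mod_cast hM
  push_cast at h1 ⊢
  linarith

end Pool.Agent.P.MP_2b0d5b_co
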